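import Mathlib
import Pool.Agent.Y178.LF.SFR

set_option autoImplicit false

/-!
# A disconnected constancy region of mixed test ideals

Let `K` be a perfect field of characteristic `p > 0` and `R = K[x, y, z]`. For the ideals
`𝔞₁ = (x² z, y³ z)` and `𝔞₂ = (x³ z, y² z)` the constancy region of the mixed test ideal
`τ(𝔞₁^{9/10} 𝔞₂^0) = (x, y)` is not connected.
-/

namespace Pool.Agent.Results.MP_e15572_ag.DisconnectedRegion

open MvPolynomial

section Definitions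

variable {R : Type} [CommRing R] (p : ℕ) {n : ℕ}

/-- The ideal `J^{[p^e]}` generated by the `p^e`-th powers of the elements of `J`. -/
def frobPower (e : ℕ) (J : Ideal R) : Ideal R := Ideal.span {x | ∃ g ∈ J, x = g ^ p ^ e}

/-- The ideal `𝔟^{[1/p^e]}`: the smallest ideal `J` with `𝔟 ⊆ J^{[p^e]}`. -/
def frobRoot (e : ℕ) (b : Ideal R) : Ideal R := sInf {J | b ≤ frobPower p e J}

/-- The mixed test ideal `τ(𝔞^𝐭) = ⋃_e (𝔞_1^{⌈t_1 p^e⌉} ⋯ 𝔞_n^{⌈t_n p^e⌉})^{[1/p^e]}` (for a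
regular ring `R` with its full Cartier algebra), as a set. -/
noncomputable def tau (a : Fin n → Ideal R) (t : Fin n → ℝ) : Set R :=
  ⋃ e : ℕ, (frobRoot p e (∏ i, a i ^ ⌈t i * (p : ℝ) ^ e⌉₊) : Set R)

/-- The constancy region of `τ(𝔞^𝐜)`, a subset of `ℝ^n`. -/
def constancyRegion (a : Fin n → Ideal R) (c : Fin n → ℝ) : Set (Fin n → ℝ) :=
  {c' | (∀ i, 0 ≤ c' i) ∧ tau p a c' = tau p a c}

end Definitions

section

variable {K : Type} [Field K] {p : ℕ} [hp : Fact p.Prime]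

abbrev S (K : Type) [Field K] := MvPolynomial (Fin 3) K

lemma q_pos (e : ℕ) : 0 < p ^ e := pow_pos hp.out.pos _

open Pool.Agent.Y178.LF in
lemma exists_phi [CharP K p] [PerfectRing K p] (e : ℕ) (β : Fin 3 →₀ ℕ) (hβ : ∀ i, β i < p ^ e) :
    ∃ φ : S K →+ S K, (∀ a b, φ (a ^ p ^ e * b) = a * φ b) ∧ φ (monomial β 1) = 1 := by
  classical
  let ι : K →+* K := ((iterateFrobeniusEquiv K p e).symm : K →+* K)
  have hι : ∀ b, ι (iterateFrobenius K p e b) = b := by
    intro b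
    exact (iterateFrobeniusEquiv K p e).symm_apply_apply b
  refine ⟨(map ι : S K →+* S K).toAddMonoidHom.comp (extract (p ^ e) (q_pos e) β), ?_, ?_⟩
  · intro a b
    change map ι (extract (p ^ e) (q_pos e) β (a ^ p ^ e * b)) =
      a * map ι (extract (p ^ e) (q_pos e) β b)
    rw [pow_eq_expand, extract_expand_mul (p ^ e) (q_pos e) β hβ, map_mul, map_map]
    congr 1
    have : ι.comp (iterateFrobenius K p e) = RingHom.id K := by
      ext b; exact hι b
    rw [this, map_id]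
  · change map ι (extract (p ^ e) (q_pos e) β (monomial β 1)) = 1
    have h1 : extract (p ^ e) (q_pos e) β (monomial β (1 : K)) = 1 := by
      ext α
      rw [coeff_extract, coeff_monomial, coeff_one]
      by_cases h0 : α = 0
      · rw [h0, smul_zero, zero_add, if_pos rfl, if_pos rfl]
      · rw [if_neg, if_neg (fun h => h0 h.symm)]
        intro h
        apply h0
        ext i
        have := DFunLike.congr_fun h i
        simp only [Finsupp.add_apply, Finsupp.smul_apply, smul_eq_mul] at this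
        have h2 : p ^ e * α i = 0 := by omega
        rcases mul_eq_zero.1 h2 with h3 | h3
        · exact absurd h3 (q_pos e).ne'
        · exact h3
    rw [h1, map_one]

/-- the monomial `x^a y^b z^c` -/
noncomputable def mon (a b c : ℕ) : S K := X 0 ^ a * X 1 ^ b * X 2 ^ c

lemma mon_mul (a b c a' b' c' : ℕ) :
    (mon a b c * mon a' b' c' : S K) = mon (a + a') (b + b') (c + c') := by
  unfold mon; ring

lemma mon_pow (a b c q : ℕ) : (mon a b c ^ q : S K) = mon (a * q) (b * q) (c * q) := by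
  unfold mon; ring

lemma mon_eq (a b c : ℕ) : (mon a b c : S K) =
    monomial (Finsupp.single 0 a + Finsupp.single 1 b + Finsupp.single 2 c) 1 := by
  unfold mon
  rw [X_pow_eq_monomial, X_pow_eq_monomial, X_pow_eq_monomial, monomial_mul, monomial_mul,
    one_mul, one_mul]

/-- detecting monomials in Frobenius roots -/
lemma mem_root [CharP K p] [PerfectRing K p] (e : ℕ) (b : Ideal (S K)) (m0 m1 m2 r0 r1 r2 : ℕ)
    (h0 : r0 < p ^ e) (h1 : r1 < p ^ e) (h2 : r2 < p ^ e)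
    (h : mon (m0 * p ^ e + r0) (m1 * p ^ e + r1) (m2 * p ^ e + r2) ∈ b) :
    mon m0 m1 m2 ∈ frobRoot p e b := by
  unfold frobRoot
  rw [Submodule.mem_sInf]
  intro J hJ
  obtain ⟨φ, hφ, hφ1⟩ := exists_phi (K := K) (p := p) e
    (Finsupp.single 0 r0 + Finsupp.single 1 r1 + Finsupp.single 2 r2) (by
      intro i
      fin_cases i <;> simpa)
  have key : ∀ f ∈ frobPower p e J, ∀ r, φ (r * f) ∈ J := by
    intro f hf
    unfold frobPower at hf
    induction hf using Submodule.span_induction with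
    | mem x hx =>
      intro r
      obtain ⟨g, hg, rfl⟩ := hx
      rw [mul_comm, hφ]
      exact Ideal.mul_mem_right _ _ hg
    | zero =>
      intro r
      rw [mul_zero, map_zero]
      exact J.zero_mem
    | add x y _ _ hx hy =>
      intro r
      rw [mul_add, map_add]
      exact J.add_mem (hx r) (hy r)
    | smul c x _ hx =>
      intro r
      rw [smul_eq_mul, ← mul_assoc]
      exact hx _
  have h3 := key _ (hJ h) 1
  rw [one_mul, ← mon_mul, ← mon_pow, hφ, mon_eq r0 r1 r2, hφ1, mul_one] at h3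
  exact h3

lemma root_le (e : ℕ) (b J : Ideal (S K)) (h : b ≤ frobPower p e J) : frobRoot p e b ≤ J :=
  sInf_le h

/-- powers of an ideal with two generators -/
lemma pow_pair_le (u v : S K) (J : Ideal (S K)) (N : ℕ) :
    ∀ w : S K, (∀ i j, i + j = N → w * (u ^ i * v ^ j) ∈ J) →
      ∀ f ∈ Ideal.span {u, v} ^ N, w * f ∈ J := by
  induction N with
  | zero =>
    intro w h f _
    have := h 0 0 rfl
    rw [pow_zero, pow_zero, mul_one, mul_one] at this
    exact J.mul_mem_right _ this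
  | succ N ih =>
    intro w h f hf
    rw [pow_succ'] at hf
    refine Submodule.mul_induction_on hf ?_ ?_
    · intro a ha g hg
      obtain ⟨c, d, rfl⟩ := Ideal.mem_span_pair.1 ha
      have e : w * ((c * u + d * v) * g) = c * (w * u * g) + d * (w * v * g) := by ring
      rw [e]
      refine J.add_mem (J.mul_mem_left _ ?_) (J.mul_mem_left _ ?_)
      · refine ih (w * u) (fun i j hij => ?_) g hg
        have := h (i + 1) j (by omega)
        have e : w * u * (u ^ i * v ^ j) = w * (u ^ (i + 1) * v ^ j) := by ring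
        rw [e]; exact this
      · refine ih (w * v) (fun i j hij => ?_) g hg
        have := h i (j + 1) (by omega)
        have e : w * v * (u ^ i * v ^ j) = w * (u ^ i * v ^ (j + 1)) := by ring
        rw [e]; exact this
    · intro x y hx hy
      rw [mul_add]
      exact J.add_mem hx hy

/-- the two ideals -/
noncomputable def A1 (K : Type) [Field K] : Ideal (S K) := Ideal.span {mon 2 0 1, mon 0 3 1}
noncomputable def A2 (K : Type) [Field K] : Ideal (S K) := Ideal.span {mon 3 0 1, mon 0 2 1}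

noncomputable def fam (K : Type) [Field K] : Fin 2 → Ideal (S K) := ![A1 K, A2 K]

lemma prod_fam (t : Fin 2 → ℝ) (e : ℕ) : ∏ i, fam K i ^ ⌈t i * (p : ℝ) ^ e⌉₊ =
    A1 K ^ ⌈t 0 * (p : ℝ) ^ e⌉₊ * A2 K ^ ⌈t 1 * (p : ℝ) ^ e⌉₊ := by
  rw [Fin.prod_univ_two]
  rfl

lemma mem_A1_pow (i j : ℕ) : mon (2 * i) (3 * j) (i + j) ∈ A1 K ^ (i + j) := by
  have h : (mon (2 * i) (3 * j) (i + j) : S K) = mon 2 0 1 ^ i * mon 0 3 1 ^ j := by
    rw [mon_pow, mon_pow, mon_mul]
    congr 1 <;> ring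
  rw [h, pow_add]
  exact Ideal.mul_mem_mul (Ideal.pow_mem_pow (Ideal.subset_span (by simp)) _)
    (Ideal.pow_mem_pow (Ideal.subset_span (by simp)) _)

lemma mem_A2_pow (i j : ℕ) : mon (3 * i) (2 * j) (i + j) ∈ A2 K ^ (i + j) := by
  have h : (mon (3 * i) (2 * j) (i + j) : S K) = mon 3 0 1 ^ i * mon 0 2 1 ^ j := by
    rw [mon_pow, mon_pow, mon_mul]
    congr 1 <;> ring
  rw [h, pow_add]
  exact Ideal.mul_mem_mul (Ideal.pow_mem_pow (Ideal.subset_span (by simp)) _)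
    (Ideal.pow_mem_pow (Ideal.subset_span (by simp)) _)

lemma nat1 (N1 N2 q : ℕ) (h1 : 6 * N1 + 4 * N2 + 8 < 5 * q) (h2 : 2 * N2 < q) :
    ∃ i j, i + j = N1 ∧ 2 * i < q ∧ 3 * j + 2 * N2 < q ∧ N1 + N2 < q := by
  refine ⟨(3 * N1 + 2 * N2 + 3 - q) / 3, N1 - (3 * N1 + 2 * N2 + 3 - q) / 3, ?_, ?_, ?_, ?_⟩ <;>
    omega

/-- the test ideal is trivial for small exponents -/
lemma one_mem [CharP K p] [PerfectRing K p] (t : Fin 2 → ℝ) (h0 : 0 ≤ t 0) (h1 : 0 ≤ t 1)
    (h64 : 6 * t 0 + 4 * t 1 < 5) (h46 : 4 * t 0 + 6 * t 1 < 5) :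
    (1 : S K) ∈ tau p (fam K) t := by
  have hp1 : (1 : ℝ) < p := by exact_mod_cast hp.out.one_lt
  have hone : (1 : S K) = mon 0 0 0 := by simp [mon]
  have hlt : t 0 < 1 / 2 ∨ t 1 < 1 / 2 := by
    by_contra hc
    push Not at hc
    linarith [hc.1, hc.2]
  have hsum : ∀ (N1 N2 q : ℕ) (s1 s2 : ℝ), (N1 : ℝ) < s1 * q + 1 → (N2 : ℝ) < s2 * q + 1 →
      18 ≤ (5 - 6 * s1 - 4 * s2) * q → 2 ≤ (1 - 2 * s2) * q →
      6 * N1 + 4 * N2 + 8 < 5 * q ∧ 2 * N2 < q := by
    intro N1 N2 q s1 s2 a1 a2 a3 a4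
    constructor
    · have : (6 * N1 + 4 * N2 + 8 : ℝ) < 5 * q := by nlinarith
      exact_mod_cast this
    · have : (2 * N2 : ℝ) < q := by nlinarith
      exact_mod_cast this
  rcases hlt with hlt | hlt
  · -- `t 0 < 1/2`
    obtain ⟨e, he⟩ := pow_unbounded_of_one_lt (18 / (5 - 6 * t 1 - 4 * t 0) +
      2 / (1 - 2 * t 0)) hp1
    have d1 : 0 < 5 - 6 * t 1 - 4 * t 0 := by linarith
    have d2 : 0 < 1 - 2 * t 0 := by linarith
    have p1 : 0 < 18 / (5 - 6 * t 1 - 4 * t 0) := by positivity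
    have p2 : 0 < 2 / (1 - 2 * t 0) := by positivity
    have b1 : 18 ≤ (5 - 6 * t 1 - 4 * t 0) * (p : ℝ) ^ e := by
      have : 18 / (5 - 6 * t 1 - 4 * t 0) ≤ (p : ℝ) ^ e := by linarith
      rwa [div_le_iff₀' d1] at this
    have b2 : 2 ≤ (1 - 2 * t 0) * (p : ℝ) ^ e := by
      have : 2 / (1 - 2 * t 0) ≤ (p : ℝ) ^ e := by linarith
      rwa [div_le_iff₀' d2] at this
    have c1 := Nat.ceil_lt_add_one (a := t 1 * (p : ℝ) ^ e) (by positivity)
    have c2 := Nat.ceil_lt_add_one (a := t 0 * (p : ℝ) ^ e) (by positivity)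
    have hq : ((p ^ e : ℕ) : ℝ) = (p : ℝ) ^ e := by push_cast; rfl
    obtain ⟨g1, g2⟩ := hsum ⌈t 1 * (p : ℝ) ^ e⌉₊ ⌈t 0 * (p : ℝ) ^ e⌉₊ (p ^ e) (t 1) (t 0)
      (by rw [hq]; exact c1) (by rw [hq]; exact c2) (by rw [hq]; exact b1)
      (by rw [hq]; exact b2)
    obtain ⟨i, j, hij, k1, k2, k3⟩ := nat1 _ _ _ g1 g2
    refine Set.mem_iUnion.2 ⟨e, ?_⟩
    rw [prod_fam, hone]
    refine mem_root e _ 0 0 0 (2 * ⌈t 0 * (p : ℝ) ^ e⌉₊ + 3 * j) (2 * i)
      (⌈t 0 * (p : ℝ) ^ e⌉₊ + ⌈t 1 * (p : ℝ) ^ e⌉₊) (by omega) (by omega) (by omega) ?_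
    have m1 := mem_A1_pow (K := K) ⌈t 0 * (p : ℝ) ^ e⌉₊ 0
    have m2 := mem_A2_pow (K := K) j i
    rw [add_comm j i, hij] at m2
    rw [add_zero, mul_zero] at m1
    have m3 := Ideal.mul_mem_mul m1 m2
    rw [mon_mul] at m3
    convert m3 using 2 <;> ring
  · -- `t 1 < 1/2`
    obtain ⟨e, he⟩ := pow_unbounded_of_one_lt (18 / (5 - 6 * t 0 - 4 * t 1) +
      2 / (1 - 2 * t 1)) hp1
    have d1 : 0 < 5 - 6 * t 0 - 4 * t 1 := by linarith
    have d2 : 0 < 1 - 2 * t 1 := by linarith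
    have p1 : 0 < 18 / (5 - 6 * t 0 - 4 * t 1) := by positivity
    have p2 : 0 < 2 / (1 - 2 * t 1) := by positivity
    have b1 : 18 ≤ (5 - 6 * t 0 - 4 * t 1) * (p : ℝ) ^ e := by
      have : 18 / (5 - 6 * t 0 - 4 * t 1) ≤ (p : ℝ) ^ e := by linarith
      rwa [div_le_iff₀' d1] at this
    have b2 : 2 ≤ (1 - 2 * t 1) * (p : ℝ) ^ e := by
      have : 2 / (1 - 2 * t 1) ≤ (p : ℝ) ^ e := by linarith
      rwa [div_le_iff₀' d2] at this
    have c1 := Nat.ceil_lt_add_one (a := t 0 * (p : ℝ) ^ e) (by positivity)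
    have c2 := Nat.ceil_lt_add_one (a := t 1 * (p : ℝ) ^ e) (by positivity)
    have hq : ((p ^ e : ℕ) : ℝ) = (p : ℝ) ^ e := by push_cast; rfl
    obtain ⟨g1, g2⟩ := hsum ⌈t 0 * (p : ℝ) ^ e⌉₊ ⌈t 1 * (p : ℝ) ^ e⌉₊ (p ^ e) (t 0) (t 1)
      (by rw [hq]; exact c1) (by rw [hq]; exact c2) (by rw [hq]; exact b1)
      (by rw [hq]; exact b2)
    obtain ⟨i, j, hij, k1, k2, k3⟩ := nat1 _ _ _ g1 g2
    refine Set.mem_iUnion.2 ⟨e, ?_⟩
    rw [prod_fam, hone]
    refine mem_root e _ 0 0 0 (2 * i) (3 * j + 2 * ⌈t 1 * (p : ℝ) ^ e⌉₊)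
      (⌈t 0 * (p : ℝ) ^ e⌉₊ + ⌈t 1 * (p : ℝ) ^ e⌉₊) (by omega) (by omega) (by omega) ?_
    have m1 := mem_A1_pow (K := K) i j
    have m2 := mem_A2_pow (K := K) 0 ⌈t 1 * (p : ℝ) ^ e⌉₊
    rw [hij] at m1
    rw [zero_add, mul_zero] at m2
    have m3 := Ideal.mul_mem_mul m1 m2
    rw [mon_mul] at m3
    convert m3 using 2 <;> ring

/-- for `t_1 + t_2 ≥ 1` the test ideal is contained in `(z)` -/
lemma tau_le_z (t : Fin 2 → ℝ) (h : 1 ≤ t 0 + t 1) :
    tau p (fam K) t ⊆ (Ideal.span {(X 2 : S K)} : Set (S K)) := by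
  intro f hf
  obtain ⟨e, he⟩ := Set.mem_iUnion.1 hf
  refine root_le e _ _ ?_ he
  rw [prod_fam]
  have g1 : A1 K ≤ Ideal.span {X 2} := by
    unfold A1
    rw [Ideal.span_le]
    rintro x (rfl | rfl)
    · exact Ideal.mem_span_singleton.2 ⟨mon 2 0 0, by unfold mon; ring⟩
    · exact Ideal.mem_span_singleton.2 ⟨mon 0 3 0, by unfold mon; ring⟩
  have g2 : A2 K ≤ Ideal.span {X 2} := by
    unfold A2
    rw [Ideal.span_le]
    rintro x (rfl | rfl)
    · exact Ideal.mem_span_singleton.2 ⟨mon 3 0 0, by unfold mon; ring⟩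
    · exact Ideal.mem_span_singleton.2 ⟨mon 0 2 0, by unfold mon; ring⟩
  refine (Ideal.mul_mono (Ideal.pow_right_mono g1 _) (Ideal.pow_right_mono g2 _)).trans ?_
  rw [← pow_add, Ideal.span_singleton_pow, Ideal.span_le]
  rintro x rfl
  have hN : p ^ e ≤ ⌈t 0 * (p : ℝ) ^ e⌉₊ + ⌈t 1 * (p : ℝ) ^ e⌉₊ := by
    have a1 := Nat.le_ceil (t 0 * (p : ℝ) ^ e)
    have a2 := Nat.le_ceil (t 1 * (p : ℝ) ^ e)
    have a3 : (0 : ℝ) < (p : ℝ) ^ e := by
      have : (0 : ℝ) < p := by exact_mod_cast hp.out.pos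
      positivity
    have : ((p ^ e : ℕ) : ℝ) ≤ ((⌈t 0 * (p : ℝ) ^ e⌉₊ + ⌈t 1 * (p : ℝ) ^ e⌉₊ : ℕ) : ℝ) := by
      push_cast
      nlinarith
    exact_mod_cast this
  obtain ⟨s, hs⟩ := Nat.exists_eq_add_of_le hN
  rw [hs, pow_add]
  exact Ideal.mul_mem_right _ _ (Ideal.subset_span ⟨X 2, Ideal.subset_span rfl, rfl⟩)

lemma X_mem_pow (i : Fin 3) (J : Ideal (S K)) (hJ : X i ∈ J) (e N : ℕ) (h : p ^ e ≤ N) :
    (X i : S K) ^ N ∈ frobPower p e J := by
  obtain ⟨s, hs⟩ := Nat.exists_eq_add_of_le h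
  rw [hs, pow_add]
  exact Ideal.mul_mem_right _ _ (Ideal.subset_span ⟨X i, hJ, rfl⟩)

/-- `τ(𝔞₁^{9/10}) = (x, y)` -/
lemma tau_left [CharP K p] [PerfectRing K p] : tau p (fam K) ![9 / 10, 0] =
    (Ideal.span {(X 0 : S K), X 1} : Set (S K)) := by
  apply Set.Subset.antisymm
  · intro f hf
    obtain ⟨e, he⟩ := Set.mem_iUnion.1 hf
    refine root_le e _ _ ?_ he
    rw [prod_fam]
    simp only [Matrix.cons_val_zero, Matrix.cons_val_one, zero_mul, Nat.ceil_zero, pow_zero,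
      mul_one]
    have hN : 9 * p ^ e ≤ 10 * ⌈(9 / 10 : ℝ) * (p : ℝ) ^ e⌉₊ := by
      have a1 := Nat.le_ceil ((9 / 10 : ℝ) * (p : ℝ) ^ e)
      have : ((9 * p ^ e : ℕ) : ℝ) ≤ ((10 * ⌈(9 / 10 : ℝ) * (p : ℝ) ^ e⌉₊ : ℕ) : ℝ) := by
        push_cast
        linarith
      exact_mod_cast this
    have hq := q_pos (p := p) e
    intro g hg
    have := pow_pair_le (mon 2 0 1) (mon 0 3 1) (frobPower p e (Ideal.span {(X 0 : S K), X 1}))
      ⌈(9 / 10 : ℝ) * (p : ℝ) ^ e⌉₊ 1 (fun i j hij => by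
        rw [one_mul, mon_pow, mon_pow, mon_mul]
        unfold mon
        by_cases h : p ^ e ≤ 2 * i
        · have := X_mem_pow (p := p) 0 (Ideal.span {(X 0 : S K), X 1}) (Ideal.subset_span (by simp)) e
            (2 * i + 0 * j) (by omega)
          exact Ideal.mul_mem_right _ _ (Ideal.mul_mem_right _ _ this)
        · have := X_mem_pow (p := p) 1 (Ideal.span {(X 0 : S K), X 1}) (Ideal.subset_span (by simp)) e
            (0 * i + 3 * j) (by omega)
          exact Ideal.mul_mem_right _ _ (Ideal.mul_mem_left _ _ this)) g hg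
    rwa [one_mul] at this
  · have hq : 128 ≤ p ^ 7 := by
      have := Nat.pow_le_pow_left hp.out.two_le 7
      norm_num at this
      exact this
    have a1 := Nat.le_ceil ((9 / 10 : ℝ) * (p : ℝ) ^ 7)
    have a2 := Nat.ceil_lt_add_one (a := (9 / 10 : ℝ) * (p : ℝ) ^ 7) (by positivity)
    have hN : 9 * p ^ 7 ≤ 10 * ⌈(9 / 10 : ℝ) * (p : ℝ) ^ 7⌉₊ := by
      have : ((9 * p ^ 7 : ℕ) : ℝ) ≤ ((10 * ⌈(9 / 10 : ℝ) * (p : ℝ) ^ 7⌉₊ : ℕ) : ℝ) := by
        push_cast
        linarith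
      exact_mod_cast this
    have hN' : 10 * ⌈(9 / 10 : ℝ) * (p : ℝ) ^ 7⌉₊ < 9 * p ^ 7 + 10 := by
      have : ((10 * ⌈(9 / 10 : ℝ) * (p : ℝ) ^ 7⌉₊ : ℕ) : ℝ) < ((9 * p ^ 7 + 10 : ℕ) : ℝ) := by
        push_cast
        linarith
      exact_mod_cast this
    have hle : Ideal.span {(X 0 : S K), X 1} ≤
        frobRoot p 7 (∏ i, fam K i ^ ⌈(![9 / 10, 0] : Fin 2 → ℝ) i * (p : ℝ) ^ 7⌉₊) := by
      rw [prod_fam]
      simp only [Matrix.cons_val_zero, Matrix.cons_val_one, zero_mul, Nat.ceil_zero, pow_zero,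
        mul_one]
      set N := ⌈(9 / 10 : ℝ) * (p : ℝ) ^ 7⌉₊ with hNdef
      rw [Ideal.span_le]
      rintro x (rfl | rfl)
      · have hm := mem_A1_pow (K := K) (N - (p ^ 7 - 1) / 3) ((p ^ 7 - 1) / 3)
        have e1 : N - (p ^ 7 - 1) / 3 + (p ^ 7 - 1) / 3 = N := by omega
        rw [e1] at hm
        have := mem_root (p := p) 7 (A1 K ^ N) 1 0 0 (2 * (N - (p ^ 7 - 1) / 3) - p ^ 7)
          (3 * ((p ^ 7 - 1) / 3)) N (by omega) (by omega) (by omega) (by
            convert hm using 2 <;> omega)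
        simpa [mon] using this
      · have hm := mem_A1_pow (K := K) ((p ^ 7 - 1) / 2) (N - (p ^ 7 - 1) / 2)
        have e1 : (p ^ 7 - 1) / 2 + (N - (p ^ 7 - 1) / 2) = N := by omega
        rw [e1] at hm
        have := mem_root (p := p) 7 (A1 K ^ N) 0 1 0 (2 * ((p ^ 7 - 1) / 2))
          (3 * (N - (p ^ 7 - 1) / 2) - p ^ 7) N (by omega) (by omega) (by omega) (by
            convert hm using 2 <;> omega)
        simpa [mon] using this
    intro f hf
    exact Set.mem_iUnion.2 ⟨7, hle hf⟩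

/-- `τ(𝔞₂^{9/10}) = (x, y)` -/
lemma tau_right [CharP K p] [PerfectRing K p] : tau p (fam K) ![0, 9 / 10] =
    (Ideal.span {(X 0 : S K), X 1} : Set (S K)) := by
  apply Set.Subset.antisymm
  · intro f hf
    obtain ⟨e, he⟩ := Set.mem_iUnion.1 hf
    refine root_le e _ _ ?_ he
    rw [prod_fam]
    simp only [Matrix.cons_val_zero, Matrix.cons_val_one, zero_mul, Nat.ceil_zero, pow_zero,
      one_mul]
    have hN : 9 * p ^ e ≤ 10 * ⌈(9 / 10 : ℝ) * (p : ℝ) ^ e⌉₊ := by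
      have a1 := Nat.le_ceil ((9 / 10 : ℝ) * (p : ℝ) ^ e)
      have : ((9 * p ^ e : ℕ) : ℝ) ≤ ((10 * ⌈(9 / 10 : ℝ) * (p : ℝ) ^ e⌉₊ : ℕ) : ℝ) := by
        push_cast
        linarith
      exact_mod_cast this
    have hq := q_pos (p := p) e
    intro g hg
    have := pow_pair_le (mon 3 0 1) (mon 0 2 1) (frobPower p e (Ideal.span {(X 0 : S K), X 1}))
      ⌈(9 / 10 : ℝ) * (p : ℝ) ^ e⌉₊ 1 (fun i j hij => by
        rw [one_mul, mon_pow, mon_pow, mon_mul]
        unfold mon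
        by_cases h : p ^ e ≤ 3 * i
        · have := X_mem_pow (p := p) 0 (Ideal.span {(X 0 : S K), X 1}) (Ideal.subset_span (by simp)) e
            (3 * i + 0 * j) (by omega)
          exact Ideal.mul_mem_right _ _ (Ideal.mul_mem_right _ _ this)
        · have := X_mem_pow (p := p) 1 (Ideal.span {(X 0 : S K), X 1}) (Ideal.subset_span (by simp)) e
            (0 * i + 2 * j) (by omega)
          exact Ideal.mul_mem_right _ _ (Ideal.mul_mem_left _ _ this)) g hg
    rwa [one_mul] at this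
  · have hq : 128 ≤ p ^ 7 := by
      have := Nat.pow_le_pow_left hp.out.two_le 7
      norm_num at this
      exact this
    have a1 := Nat.le_ceil ((9 / 10 : ℝ) * (p : ℝ) ^ 7)
    have a2 := Nat.ceil_lt_add_one (a := (9 / 10 : ℝ) * (p : ℝ) ^ 7) (by positivity)
    have hN : 9 * p ^ 7 ≤ 10 * ⌈(9 / 10 : ℝ) * (p : ℝ) ^ 7⌉₊ := by
      have : ((9 * p ^ 7 : ℕ) : ℝ) ≤ ((10 * ⌈(9 / 10 : ℝ) * (p : ℝ) ^ 7⌉₊ : ℕ) : ℝ) := by
        push_cast
        linarith
      exact_mod_cast this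
    have hN' : 10 * ⌈(9 / 10 : ℝ) * (p : ℝ) ^ 7⌉₊ < 9 * p ^ 7 + 10 := by
      have : ((10 * ⌈(9 / 10 : ℝ) * (p : ℝ) ^ 7⌉₊ : ℕ) : ℝ) < ((9 * p ^ 7 + 10 : ℕ) : ℝ) := by
        push_cast
        linarith
      exact_mod_cast this
    have hle : Ideal.span {(X 0 : S K), X 1} ≤
        frobRoot p 7 (∏ i, fam K i ^ ⌈(![0, 9 / 10] : Fin 2 → ℝ) i * (p : ℝ) ^ 7⌉₊) := by
      rw [prod_fam]
      simp only [Matrix.cons_val_zero, Matrix.cons_val_one, zero_mul, Nat.ceil_zero, pow_zero,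
        one_mul]
      set N := ⌈(9 / 10 : ℝ) * (p : ℝ) ^ 7⌉₊ with hNdef
      rw [Ideal.span_le]
      rintro x (rfl | rfl)
      · have hm := mem_A2_pow (K := K) (N - (p ^ 7 - 1) / 2) ((p ^ 7 - 1) / 2)
        have e1 : N - (p ^ 7 - 1) / 2 + (p ^ 7 - 1) / 2 = N := by omega
        rw [e1] at hm
        have := mem_root (p := p) 7 (A2 K ^ N) 1 0 0 (3 * (N - (p ^ 7 - 1) / 2) - p ^ 7)
          (2 * ((p ^ 7 - 1) / 2)) N (by omega) (by omega) (by omega) (by
            convert hm using 2 <;> omega)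
        simpa [mon] using this
      · have hm := mem_A2_pow (K := K) ((p ^ 7 - 1) / 3) (N - (p ^ 7 - 1) / 3)
        have e1 : (p ^ 7 - 1) / 3 + (N - (p ^ 7 - 1) / 3) = N := by omega
        rw [e1] at hm
        have := mem_root (p := p) 7 (A2 K ^ N) 0 1 0 (3 * ((p ^ 7 - 1) / 3))
          (2 * (N - (p ^ 7 - 1) / 3) - p ^ 7) N (by omega) (by omega) (by omega) (by
            convert hm using 2 <;> omega)
        simpa [mon] using this
    intro f hf
    exact Set.mem_iUnion.2 ⟨7, hle hf⟩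

lemma not_preconnected [CharP K p] [PerfectRing K p] :
    ¬ IsPreconnected (constancyRegion p (fam K) ![9 / 10, 0]) := by
  intro hpre
  rw [isPreconnected_closed_iff] at hpre
  have hXz : (X 0 : S K) ∉ Ideal.span {(X 2 : S K)} := by
    rw [Ideal.mem_span_singleton]
    rintro ⟨w, hw⟩
    have := congrArg (eval ![(1 : K), 0, 0]) hw
    simp at this
  have h1n : (1 : S K) ∉ (Ideal.span {(X 0 : S K), X 1} : Set (S K)) := by
    intro h
    obtain ⟨a, b, hab⟩ := Ideal.mem_span_pair.1 h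
    have := congrArg (constantCoeff (σ := Fin 3) (R := K)) hab
    simp at this
  obtain ⟨c, ⟨hc0, hc⟩, hc1, hc2⟩ := hpre {t | 5 ≤ 6 * t 0 + 4 * t 1} {t | 5 ≤ 4 * t 0 + 6 * t 1}
    (isClosed_le continuous_const (by fun_prop)) (isClosed_le continuous_const (by fun_prop)) (by
      rintro c ⟨hc0, hc⟩
      by_contra hn
      rw [Set.mem_union, not_or] at hn
      simp only [Set.mem_ofPred_eq, not_le] at hn
      have := one_mem (K := K) (p := p) c (hc0 0) (hc0 1) hn.1 hn.2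
      rw [hc, tau_left] at this
      exact h1n this)
    ⟨![9 / 10, 0], ⟨fun i => by fin_cases i <;> simp; norm_num, rfl⟩, by
      simp only [Set.mem_ofPred_eq, Matrix.cons_val_zero, Matrix.cons_val_one]; norm_num⟩
    ⟨![0, 9 / 10], ⟨fun i => by fin_cases i <;> simp; norm_num, by rw [tau_left, tau_right]⟩, by
      simp only [Set.mem_ofPred_eq, Matrix.cons_val_zero, Matrix.cons_val_one]; norm_num⟩
  simp only [Set.mem_ofPred_eq] at hc1 hc2
  have h2 := tau_le_z (K := K) (p := p) c (by linarith)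
  rw [hc, tau_left] at h2
  exact hXz (h2 (Ideal.subset_span (by simp)))

end

/-- **Constancy regions of mixed test ideals need not be connected.** For every prime `p` and every
perfect field `K` of characteristic `p` there are two ideals in `K[x, y, z]` and a point `𝐜` such
that the constancy region of `τ(𝔞^𝐜)` is not connected, and hence not path-connected. -/
theorem result : ∀ (p : ℕ) [Fact p.Prime] (K : Type) [Field K] [CharP K p] [PerfectRing K p],
    ∃ (a : Fin 2 → Ideal (MvPolynomial (Fin 3) K)) (c : Fin 2 → ℝ), (∀ i, 0 ≤ c i) ∧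
      ¬ IsConnected (constancyRegion p a c) ∧ ¬ IsPathConnected (constancyRegion p a c) := by
  intro p _ K _ _ _
  refine ⟨fam K, ![9 / 10, 0], fun i => by fin_cases i <;> simp; norm_num, ?_, ?_⟩
  · exact fun h => not_preconnected h.isPreconnected
  · exact fun h => not_preconnected h.isConnected.isPreconnected

end Pool.Agent.Results.MP_e15572_ag.DisconnectedRegion
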